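import Mathlib
import Pool.Agent.H.MP_ed8104_gt.Main

set_option autoImplicit false

namespace Pool.Agent.Results.MP_ed8104_gt.Main

open Set Filter
open Cardinal hiding univ

noncomputable def dom : Cardinal.{0} :=
  sInf {c | ∃ D : Set (ℕ → ℕ), #D = c ∧ ∀ g : ℕ → ℕ, ∃ f ∈ D, ∀ᶠ n in atTop, g n ≤ f n}

def WL (X : Type) [TopologicalSpace X] : Prop :=
  ∀ 𝒰 : Set (Set X), (∀ U ∈ 𝒰, IsOpen U) → ⋃₀ 𝒰 = univ → ∃ 𝒱 ⊆ 𝒰, 𝒱.Countable ∧ Dense (⋃₀ 𝒱)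

def Sel (X : Type) [TopologicalSpace X] (P : (ℕ → Set X) → Prop) : Prop :=
  ∀ 𝒰 : ℕ → Set (Set X), (∀ n, ∀ U ∈ 𝒰 n, IsOpen U) → (∀ n, ⋃₀ 𝒰 n = univ) →
    ∃ 𝒱 : ℕ → Set (Set X), (∀ n, 𝒱 n ⊆ 𝒰 n ∧ (𝒱 n).Finite) ∧ P fun n => ⋃₀ 𝒱 n

def WK (X : Type) [TopologicalSpace X] : Prop :=
  Sel X fun V => ∃ Y : Set X, Dense Y ∧ ∀ F ⊆ Y, F.Finite → {n | F ⊆ V n}.Infinite

def WS (X : Type) [TopologicalSpace X] : Prop :=
  Sel X fun V => ∀ ℱ : Set (Set X), ℱ.Finite → (∀ U ∈ ℱ, IsOpen U ∧ U.Nonempty) →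
    {n | ∀ U ∈ ℱ, (U ∩ V n).Nonempty}.Infinite

def WM (X : Type) [TopologicalSpace X] : Prop :=
  Sel X fun V => Dense (⋃ n, V n)

lemma dom_gt : ℵ₁ ≤ dom := by
  refine le_csInf ⟨_, univ, rfl, fun g => ⟨g, trivial, by simp⟩⟩ ?_
  rintro _ ⟨D, rfl, h⟩
  rw [← succ_aleph0, Order.succ_le_iff]
  by_contra h1
  obtain ⟨e, he⟩ := countable_iff_exists_subset_range.1
    (le_aleph0_iff_set_countable.1 (not_lt.1 h1))
  obtain ⟨f, h2, h3⟩ := h fun n => ∑ j ∈ Finset.range (n + 1), e j n + 1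
  obtain ⟨j, rfl⟩ := he h2
  obtain ⟨n, h4, h5⟩ := (h3.and (eventually_ge_atTop j)).exists
  have := Finset.single_le_sum (f := fun i => e i n) (fun _ _ => Nat.zero_le _)
    (Finset.mem_range.2 (Nat.lt_add_one_of_le h5))
  omega

lemma wk_ws {X : Type} [TopologicalSpace X] (h : WK X) : WS X := by
  intro 𝒰 h1 h2
  obtain ⟨𝒱, h3, Y, h4, h5⟩ := h 𝒰 h1 h2
  refine ⟨𝒱, h3, fun ℱ h6 h7 => ?_⟩
  choose y h8 h9 using fun U : ℱ => h4.exists_mem_open (h7 U U.2).1 (h7 U U.2).2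
  have := h6.to_subtype
  refine (h5 (range y) (range_subset_iff.2 h8) (finite_range y)).mono ?_
  exact fun n hn U hU => ⟨y ⟨U, hU⟩, h9 ⟨U, hU⟩, hn ⟨_, rfl⟩⟩

lemma ws_wm {X : Type} [TopologicalSpace X] (h : WS X) : WM X := by
  intro 𝒰 h1 h2
  obtain ⟨𝒱, h3, h4⟩ := h 𝒰 h1 h2
  refine ⟨𝒱, h3, dense_iff_inter_open.2 fun U h5 h6 => ?_⟩
  obtain ⟨n, hn⟩ := (h4 {U} (finite_singleton U) (by simpa using ⟨h5, h6⟩)).nonempty
  exact (hn U rfl).mono (inter_subset_inter_right _ (subset_iUnion (fun n => ⋃₀ 𝒱 n) n))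

lemma ct_wk {X : Type} [TopologicalSpace X] [Countable X] : WK X := by
  intro 𝒰 h1 h2
  cases isEmpty_or_nonempty X
  · exact ⟨fun _ => ∅, by simp, univ, dense_univ, fun F _ _ => by
      simp [eq_empty_of_isEmpty F, infinite_univ]⟩
  obtain ⟨e, he⟩ := exists_surjective_nat X
  choose U h3 h4 using fun n x => (h2 n ▸ mem_univ x : x ∈ ⋃₀ 𝒰 n)
  refine ⟨fun n => (fun j => U n (e j)) '' Iic n, fun n => ⟨image_subset_iff.2 fun j _ => h3 _ _,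
    (finite_Iic n).image _⟩, univ, dense_univ, fun F _ hF => ?_⟩
  choose s hs using he
  obtain ⟨N, hN⟩ := (hF.image s).bddAbove
  refine (Ici_infinite N).mono fun n hn x hx => ⟨U n x, ⟨s x, ?_, by simp only [hs]⟩, h4 n x⟩
  exact (hN ⟨x, hx, rfl⟩).trans hn

theorem result :
    ((∀ (X : Type) [TopologicalSpace X], WL X → #X < dom → WK X) ↔ dom = ℵ₁) ∧
    ((∀ (X : Type) [TopologicalSpace X], WL X → #X < dom → WS X) ↔ dom = ℵ₁) ∧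
    ((∀ (X : Type) [TopologicalSpace X], WL X → #X < dom → WM X) ↔ dom = ℵ₁) := by
  have h1 : (∀ (X : Type) [TopologicalSpace X], WL X → #X < dom → WM X) → dom = ℵ₁ := by
    intro h
    by_contra h2
    obtain ⟨𝒰, h3, h4, h5⟩ := H.MP_ed8104_gt.not_wm
    obtain ⟨𝒱, h6, h7⟩ := h _ H.MP_ed8104_gt.wl
      (H.MP_ed8104_gt.card_X.trans_lt (dom_gt.lt_of_ne' h2)) 𝒰 h3 h4
    exact h5 𝒱 h6 h7
  have h2 : dom = ℵ₁ → ∀ (X : Type) [TopologicalSpace X], WL X → #X < dom → WK X := by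
    intro h X _ _ hX
    rw [h, ← succ_aleph0, Order.lt_succ_iff, mk_le_aleph0_iff] at hX
    exact ct_wk
  exact ⟨⟨fun h => h1 fun X _ a b => ws_wm (wk_ws (h X a b)), h2⟩,
    ⟨fun h => h1 fun X _ a b => ws_wm (h X a b), fun h X _ a b => wk_ws (h2 h X a b)⟩,
    h1, fun h X _ a b => ws_wm (wk_ws (h2 h X a b))⟩

end Pool.Agent.Results.MP_ed8104_gt.Main
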